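import Pool.Agent.Y111.HU.Fin

set_option autoImplicit false

/-! # Finite p-groups whose Hughes subgroup has index exactly `p ^ 2`, for every prime `p > 3` -/

namespace Pool.Agent.Results.MP_2bfd0d_al.FinitePGroups

/-- The Hughes subgroup `H_p(G)`: the subgroup generated by all elements of `G` whose order is not
`p` (`orderOf g = 0` for elements of infinite order, so they are among the generators). -/
def hughes (G : Type) [Group G] (p : ℕ) : Subgroup G :=
  Subgroup.closure {g : G | orderOf g ≠ p}

/-- For every prime `p > 3` there is a finite `p`-group `G` whose Hughes subgroup `H_p(G)` is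
nontrivial and proper and has index exactly `p ^ 2`. So the Hughes conjecture fails for every prime
`p > 3`, already for finite `p`-groups. -/
theorem result (p : ℕ) (hp : p.Prime) (h3 : 3 < p) :
    ∃ (G : Type) (_ : Group G), Finite G ∧ IsPGroup p G ∧
      hughes G p ≠ ⊥ ∧ hughes G p ≠ ⊤ ∧ (hughes G p).index = p ^ 2 ∧ (hughes G p).index ≠ p := by
  have : Fact p.Prime := ⟨hp⟩
  obtain ⟨G, hG, hf, hp', h1, h2⟩ := Pool.Agent.Y111.HU.main_exact (p := p) h3
  refine ⟨G, hG, hf, hp', h1, ?_, h2, ?_⟩
  · intro h
    have h4 : (hughes G p).index = p ^ 2 := h2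
    rw [h, Subgroup.index_top] at h4
    have := hp.two_le
    nlinarith
  · intro h
    have h4 : (hughes G p).index = p ^ 2 := h2
    rw [h4] at h
    have := hp.two_le
    nlinarith

end Pool.Agent.Results.MP_2bfd0d_al.FinitePGroups
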